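import Pool.Agent.Q117.BP.Gadget

/-! Joining two fans. -/

set_option linter.unusedSectionVars false

namespace Pool.Agent.Q117.BP

open SimpleGraph

variable {V : Type} [DecidableEq V] {G : SimpleGraph V}

theorem exists_PL (hG : G.Connected) (a b : V) (hab : a ≠ b) :
    ∃ m, PL G (a :: (m ++ [b])) := by
  obtain ⟨p, hp⟩ := (hG a b).exists_isPath
  have h1 : PL G p.support := ⟨hp.support_nodup, p.isChain_adj_support⟩
  cases p with
  | nil => exact absurd rfl hab
  | cons h q =>
    rw [Walk.support_cons] at h1
    refine ⟨q.support.dropLast, ?_⟩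
    have h2 : q.support.dropLast ++ [b] = q.support := by
      have := List.dropLast_append_getLast (Walk.support_ne_nil q)
      rwa [Walk.getLast_support] at this
    rw [h2]
    exact h1

/-- a shortest connection of two disjoint sets -/
theorem connect (hG : G.Connected) (E E' : Finset V) (hE : E.Nonempty) (hE' : E'.Nonempty)
    (hd : Disjoint E E') : ∃ a b m, a ∈ E ∧ b ∈ E' ∧ PL G (a :: (m ++ [b])) ∧
      ∀ z ∈ m, z ∉ E ∧ z ∉ E' := by
  have key : ∀ k : ℕ, ∀ a b m, m.length = k → a ∈ E → b ∈ E' → PL G (a :: (m ++ [b])) →
      ∃ a b m, a ∈ E ∧ b ∈ E' ∧ PL G (a :: (m ++ [b])) ∧ ∀ z ∈ m, z ∉ E ∧ z ∉ E' := by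
    intro k
    induction k using Nat.strong_induction_on with
    | _ k ih =>
      intro a b m hm ha hb hl
      by_cases hz : ∀ z ∈ m, z ∉ E ∧ z ∉ E'
      · exact ⟨a, b, m, ha, hb, hl, hz⟩
      · push Not at hz
        obtain ⟨z, hzm, hz⟩ := hz
        obtain ⟨m1, m2, rfl⟩ := List.append_of_mem hzm
        by_cases hzE : z ∈ E
        · refine ih m2.length ?_ z b m2 rfl hzE hb ?_
          · rw [← hm]; simp; omega
          · have h1 := hl.tail
            rw [List.append_assoc] at h1
            exact h1.right
        · have hzE' := hz hzE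
          refine ih m1.length ?_ a z m1 rfl ha hzE' ?_
          · rw [← hm]; simp
          · have h1 : a :: ((m1 ++ z :: m2) ++ [b]) = (a :: (m1 ++ [z])) ++ (m2 ++ [b]) := by
              simp
            rw [h1] at hl
            exact hl.left
  obtain ⟨a, ha⟩ := hE
  obtain ⟨b, hb⟩ := hE'
  have hab : a ≠ b := by
    rintro rfl
    exact Finset.disjoint_left.1 hd ha hb
  obtain ⟨m, hm⟩ := exists_PL hG a b hab
  exact key _ a b m rfl ha hb hm

theorem combine (hG : G.Connected) {L M : ℕ} (hL : ∀ l, PL G l → l.length ≤ L)
    {x y : V} {N N' : Finset V} {h h' j j' : ℕ} (hg : Gadget G x N h M) (hg' : Gadget G y N' h' M)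
    (hj : j ≤ N.card + h / 2) (hx : x ∈ N → h % 2 = 1)
    (hj' : j' ≤ N'.card + h' / 2) (hy : y ∈ N' → h' % 2 = 1)
    (hNN : Disjoint N N') (hxy : ¬ (x ∈ N' ∧ y ∈ N))
    (hc : N.card ≤ L) (hc' : N'.card ≤ L) (hh : h ≤ L) (hh' : h' ≤ L) (hM : 12 * L + 20 < M) :
    2 * j + 2 * j' ≤ L := by
  by_cases hd : Disjoint (insert x N) (insert y N')
  · obtain ⟨a, b, m, ha, hb, hm, hmz⟩ := connect hG (insert x N) (insert y N')
      ⟨x, Finset.mem_insert_self _ _⟩ ⟨y, Finset.mem_insert_self _ _⟩ hd
    have hmlen := hL _ hm
    have hmlen' : m.length + 2 ≤ L := by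
      simp only [List.length_cons, List.length_append, List.length_nil] at hmlen
      omega
    obtain ⟨l, hl1, hl2, hl3, _⟩ := fan hg hj hx ha (m.toFinset ∪ insert y N') (by
      rw [Finset.disjoint_union_right]
      refine ⟨?_, hd⟩
      rw [Finset.disjoint_right]
      intro z hz
      exact (hmz z (List.mem_toFinset.1 hz)).1) (by
      have a1 := Finset.card_union_le m.toFinset (insert y N')
      have a2 := List.toFinset_card_le m
      have a3 := Finset.card_insert_le y N'
      omega)
    have hlen := hL _ hl1
    obtain ⟨l', hl1', hl2', hl3', _⟩ := fan hg' hj' hy hb (m.toFinset ∪ (a :: l).toFinset) (by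
      rw [Finset.disjoint_union_right]
      constructor
      · rw [Finset.disjoint_right]
        intro z hz
        exact (hmz z (List.mem_toFinset.1 hz)).2
      · rw [Finset.disjoint_right]
        intro z hz hz'
        have := hl2 z (List.mem_toFinset.1 hz)
        exact this (Finset.mem_union_right _ hz')) (by
      have a1 := Finset.card_union_le m.toFinset (a :: l).toFinset
      have a2 := List.toFinset_card_le m
      have a3 := List.toFinset_card_le (a :: l)
      omega)
    have hm1 : PL G m := hm.tail.left
    -- assemble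
    have hmb : PL G (m ++ (b :: l')) := by
      refine ⟨?_, List.isChain_split.2 ⟨hm.tail.2, hl1'.2⟩⟩
      rw [List.nodup_append]
      refine ⟨hm1.1, hl1'.1, ?_⟩
      rintro z hz w hw rfl
      exact hl2' z hw (Finset.mem_union_left _ (List.mem_toFinset.2 hz))
    have hall : PL G (l.reverse ++ (a :: (m ++ (b :: l')))) := by
      have h1 : PL G (l.reverse ++ [a]) := by
        have := hl1.reverse
        rwa [List.reverse_cons] at this
      have h2 : PL G (a :: (m ++ (b :: l'))) := by
        refine PL.cons hmb ?_ ?_
        · intro c hc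
          have h3 := (List.isChain_cons.1 hm.2).1 c
          apply h3
          rcases m with _ | ⟨d, m⟩
          · simpa using hc
          · simpa using hc
        · intro hz
          rw [List.mem_append] at hz
          rcases hz with hz | hz
          · exact (hmz a hz).1 ha
          · exact hl2' a hz (Finset.mem_union_right _ (List.mem_toFinset.2 (by simp)))
      refine ⟨?_, List.isChain_split.2 ⟨h1.2, h2.2⟩⟩
      rw [List.nodup_append]
      refine ⟨(List.nodup_append.1 h1.1).1, h2.1, ?_⟩
      rintro z hz w hw rfl
      rw [List.mem_reverse] at hz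
      rw [List.mem_cons, List.mem_append] at hw
      rcases hw with hw | hw | hw
      · rw [hw] at hz
        exact (List.nodup_cons.1 hl1.1).1 hz
      · exact hl2 z (by simp [hz]) (Finset.mem_union_left _ (List.mem_toFinset.2 hw))
      · exact hl2' z hw (Finset.mem_union_right _ (List.mem_toFinset.2 (by simp [hz])))
    have := hL _ hall
    simp only [List.length_append, List.length_reverse, List.length_cons] at this hl3 hl3'
    omega
  · obtain ⟨z, hz, hz'⟩ := Finset.not_disjoint_iff.1 hd
    have huniq : ∀ w, w ∈ insert x N → w ∈ insert y N' → w = z := by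
      intro w hw hw'
      rw [Finset.mem_insert] at hz hz' hw hw'
      by_contra hwz
      rcases hw with hw | hw <;> rcases hw' with hw' | hw' <;> rcases hz with hz | hz <;>
        rcases hz' with hz' | hz'
      · exact hwz (hw.trans hz.symm)
      · exact hwz (hw.trans hz.symm)
      · exact hwz (hw'.trans hz'.symm)
      · exact Finset.disjoint_left.1 hNN hz hz'
      · exact hwz (hw.trans hz.symm)
      · exact hwz (hw.trans hz.symm)
      · exact hxy ⟨hw ▸ hw', hz' ▸ hz⟩
      · exact Finset.disjoint_left.1 hNN hz hz'
      · exact hwz (hw'.trans hz'.symm)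
      · exact hxy ⟨hz ▸ hz', hw' ▸ hw⟩
      · exact hwz (hw'.trans hz'.symm)
      · exact Finset.disjoint_left.1 hNN hz hz'
      · exact Finset.disjoint_left.1 hNN hw hw'
      · exact Finset.disjoint_left.1 hNN hw hw'
      · exact Finset.disjoint_left.1 hNN hw hw'
      · exact Finset.disjoint_left.1 hNN hw hw'
    obtain ⟨l, hl1, hl2, hl3, hl4⟩ := fan hg hj hx hz ((insert y N').erase z) (by
      rw [Finset.disjoint_left]
      intro w hw hw'
      rw [Finset.mem_erase] at hw'
      exact hw'.1 (huniq w hw hw'.2)) (by
      have a1 := Finset.card_erase_le (a := z) (s := insert y N')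
      have a3 := Finset.card_insert_le y N'
      omega)
    have hlen := hL _ hl1
    have hlen' : l.length + 1 ≤ L := by
      simp only [List.length_cons] at hlen
      omega
    obtain ⟨l', hl1', hl2', hl3', hl4'⟩ := fan hg' hj' hy hz' l.toFinset (by
      rw [Finset.disjoint_right]
      intro w hw hw'
      rw [List.mem_toFinset] at hw
      have h1 := hl2 w (by simp [hw])
      rw [Finset.mem_erase, not_and] at h1
      by_cases hwz : w = z
      · rw [hwz] at hw
        exact (List.nodup_cons.1 hl1.1).1 hw
      · exact h1 hwz hw') (by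
      have a2 := List.toFinset_card_le l
      omega)
    have hall : PL G (l.reverse ++ (z :: l')) := by
      have h1 : PL G (l.reverse ++ [z]) := by
        have := hl1.reverse
        rwa [List.reverse_cons] at this
      refine ⟨?_, List.isChain_split.2 ⟨h1.2, hl1'.2⟩⟩
      rw [List.nodup_append]
      refine ⟨(List.nodup_append.1 h1.1).1, hl1'.1, ?_⟩
      rintro w hw w' hw' rfl
      rw [List.mem_reverse] at hw
      exact hl2' w hw' (List.mem_toFinset.2 hw)
    have := hL _ hall
    simp only [List.length_append, List.length_reverse, List.length_cons] at this hl3 hl3' hl4 hl4'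
    by_cases hzN : z ∈ N
    · have hzN' : z ∉ N' := Finset.disjoint_left.1 hNN hzN
      have := hl4' hzN'
      omega
    · have := hl4 hzN
      omega

end Pool.Agent.Q117.BP
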