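import Pool.Agent.Q117.BP.NTree
import Pool.Agent.Q117.BP.Combine

/-! Levels of a rooted tree and fans in it. -/

set_option linter.unusedSectionVars false

namespace Pool.Agent.Q117.BP

open SimpleGraph Finset

variable {V : Type} [DecidableEq V] {G : SimpleGraph V} {r : V}

namespace RT

variable (T : RT G r)

/-- the ancestor at level `m` -/
def lev (v : V) (m : ℕ) : V := T.par^[T.dep v - m] v

theorem dep_lev {v : V} {m : ℕ} (h : m ≤ T.dep v) : T.dep (T.lev v m) = m := by
  unfold lev
  rw [T.dep_iter (by omega)]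
  omega

theorem lev_anc {v : V} (m : ℕ) : T.anc (T.lev v m) v :=
  ⟨T.dep v - m, by omega, rfl⟩

theorem lev_self (v : V) : T.lev v (T.dep v) = v := by
  unfold lev
  rw [Nat.sub_self]
  rfl

theorem lev_of_anc {u v : V} (h : T.anc u v) : T.lev v (T.dep u) = u := T.iter_eq h

theorem lev_lev {u v : V} (h : T.anc u v) {m : ℕ} (hm : m ≤ T.dep u) : T.lev u m = T.lev v m := by
  have h1 : T.anc (T.lev u m) v := T.anc_trans (T.lev_anc m) h
  have h2 : T.anc (T.lev v m) v := T.lev_anc m
  refine T.anc_eq_of_dep h1 h2 ?_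
  rw [T.dep_lev hm, T.dep_lev (hm.trans (T.dep_le h))]

theorem lev_zero (v : V) : T.lev v 0 = r := by
  apply T.eq_root
  exact T.dep_lev (Nat.zero_le _)

theorem lev_adj {v : V} {m : ℕ} (h : m + 1 ≤ T.dep v) : G.Adj (T.lev v m) (T.lev v (m + 1)) := by
  have h1 : T.lev v (m + 1) ≠ r := T.ne_root (by rw [T.dep_lev h]; omega)
  have h2 := (T.step _ h1).1
  have h3 : T.par (T.lev v (m + 1)) = T.lev v m := by
    unfold lev
    have e : T.dep v - m = (T.dep v - (m + 1)) + 1 := by omega
    rw [e, Function.iterate_succ_apply']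
  rw [h3] at h2
  exact h2.symm

theorem lev_inj {v : V} {m m' : ℕ} (h : m ≤ T.dep v) (h' : m' ≤ T.dep v)
    (he : T.lev v m = T.lev v m') : m = m' := by
  have := congrArg T.dep he
  rwa [T.dep_lev h, T.dep_lev h'] at this

/-- vertices of the levels `a, ..., a + t - 1` above `v` -/
theorem PL_seg {v : V} (a : ℕ) : ∀ t : ℕ, a + t ≤ T.dep v + 1 →
    PL G ((List.range t).map (fun i => T.lev v (a + i))) := by
  intro t ht
  refine ⟨?_, ?_⟩
  · rw [List.nodup_map_iff_inj_on List.nodup_range]
    intro i hi j hj hij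
    rw [List.mem_range] at hi hj
    have := T.lev_inj (by omega) (by omega) hij
    omega
  · rw [List.isChain_iff_getElem]
    intro i hi
    simp only [List.length_map, List.length_range] at hi
    simp only [List.getElem_map, List.getElem_range]
    have := T.lev_adj (v := v) (m := a + i) (by omega)
    exact this

theorem dep_lt {L : ℕ} (hL : ∀ l, PL G l → l.length ≤ L) (v : V) : T.dep v < L := by
  have := hL _ (T.PL_seg (v := v) 0 (T.dep v + 1) (by omega))
  simp only [List.length_map, List.length_range] at this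
  omega

/-- colours alternate along the branches -/
theorem col_lev (col : V → Bool) (hc : ∀ u v, G.Adj u v → col u ≠ col v) (v : V) :
    ∀ t : ℕ, t ≤ T.dep v → (col (T.lev v (T.dep v - t)) = col v ↔ t % 2 = 0) := by
  intro t
  induction t with
  | zero => intro _; simp [T.lev_self]
  | succ t ih =>
    intro ht
    have h1 := ih (by omega)
    have h2 := T.lev_adj (v := v) (m := T.dep v - (t + 1)) (by omega)
    have h3 : T.dep v - (t + 1) + 1 = T.dep v - t := by omega
    rw [h3] at h2
    have h4 := hc _ _ h2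
    have h5 : (col (T.lev v (T.dep v - (t + 1))) = col v) ↔ ¬ (col (T.lev v (T.dep v - t)) = col v) := by
      revert h4
      cases col (T.lev v (T.dep v - (t + 1))) <;> cases col (T.lev v (T.dep v - t)) <;>
        cases col v <;> simp
    rw [h5, h1]
    omega

open Classical in
/-- levels of the ancestors adjacent to `v` -/
noncomputable def pat (v : V) : Finset ℕ := (range (T.dep v)).filter (fun m => G.Adj v (T.lev v m))

theorem mem_pat {v : V} {m : ℕ} : m ∈ T.pat v ↔ m < T.dep v ∧ G.Adj v (T.lev v m) := by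
  classical
  simp [pat]

theorem pat_odd (col : V → Bool) (hc : ∀ u v, G.Adj u v → col u ≠ col v) {v : V} {m : ℕ}
    (h : m ∈ T.pat v) : (T.dep v - m) % 2 = 1 := by
  rw [T.mem_pat] at h
  have h1 := T.col_lev col hc v (T.dep v - m) (by omega)
  have h2 : T.dep v - (T.dep v - m) = m := by omega
  rw [h2] at h1
  have h3 := hc _ _ h.2
  have : ¬ (T.dep v - m) % 2 = 0 := fun h' => h3 (h1.2 h').symm
  omega

/-- number of levels of the right parity strictly between `ℓ` and `d` -/
theorem card_odd (S : Finset ℕ) (ℓ d : ℕ) (hS : ∀ m ∈ S, ℓ < m ∧ m < d ∧ (d - m) % 2 = 1) :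
    S.card ≤ (d - ℓ) / 2 := by
  have : S.card ≤ (range ((d - ℓ) / 2)).card := by
    apply Finset.card_le_card_of_injOn (fun m => (d - m) / 2)
    · intro m hm
      have := hS m hm
      simp only [coe_range, Set.mem_Iio]
      omega
    · intro m hm m' hm' h
      have h1 := hS m hm
      have h2 := hS m' hm'
      simp only at h
      omega
  simpa using this

theorem pat_card_le (col : V → Bool) (hc : ∀ u v, G.Adj u v → col u ≠ col v) {s : ℕ}
    (hL : ∀ l, PL G l → l.length ≤ 2 * s + 1) (v : V) : (T.pat v).card ≤ s := by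
  have hd := T.dep_lt hL v
  have : (T.pat v).card ≤ (range s).card := by
    apply Finset.card_le_card_of_injOn (fun m => (T.dep v - m) / 2)
    · intro m hm
      have h1 := T.pat_odd col hc hm
      simp only [coe_range, Set.mem_Iio]
      omega
    · intro m hm m' hm' h
      have h1 := T.pat_odd col hc hm
      have h2 := T.pat_odd col hc hm'
      have h3 := (T.mem_pat.1 hm).1
      have h4 := (T.mem_pat.1 hm').1
      simp only at h
      omega
  simpa using this

theorem sunflower {d M : ℕ} (hM : 1 ≤ M) : ∀ t : ℕ, ∀ (ℓ : ℕ) (x : V) (X : Finset V), ℓ + t = d →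
    (∀ v ∈ X, T.dep v = d) → (∀ v ∈ X, T.lev v ℓ = x) → M ^ t < X.card →
    ∃ ℓ' x' Y, ℓ' < d ∧ Y ⊆ X ∧ M ≤ Y.card ∧ (∀ v ∈ Y, T.lev v ℓ' = x') ∧
      Set.InjOn (fun v => T.lev v (ℓ' + 1)) (Y : Set V) := by
  intro t
  induction t with
  | zero =>
    intro ℓ x X hℓ hd hx hc
    exfalso
    have : X.card ≤ 1 := by
      rw [Finset.card_le_one]
      intro a ha b hb
      have h1 := hx a ha
      have h2 := hx b hb
      have h3 : ℓ = T.dep a := by rw [hd a ha]; omega
      have h4 : ℓ = T.dep b := by rw [hd b hb]; omega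
      rw [h3, T.lev_self] at h1
      rw [h4, T.lev_self] at h2
      rw [h1, h2]
    simp at hc
    omega
  | succ t ih =>
    intro ℓ x X hℓ hd hx hc
    by_cases hI : M ≤ (X.image (fun v => T.lev v (ℓ + 1))).card
    · have hch : ∀ y ∈ X.image (fun v => T.lev v (ℓ + 1)), ∃ v ∈ X, T.lev v (ℓ + 1) = y := by
        intro y hy
        simpa using hy
      choose! g hg1 hg2 using hch
      refine ⟨ℓ, x, (X.image (fun v => T.lev v (ℓ + 1))).image g, by omega, ?_, ?_, ?_, ?_⟩
      · intro v hv
        rw [Finset.mem_image] at hv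
        obtain ⟨y, hy, rfl⟩ := hv
        exact hg1 y hy
      · rw [Finset.card_image_of_injOn]
        · exact hI
        · intro y hy y' hy' h
          have h1 := hg2 y hy
          have h2 := hg2 y' hy'
          rw [← h1, ← h2, h]
      · intro v hv
        rw [Finset.mem_image] at hv
        obtain ⟨y, hy, rfl⟩ := hv
        exact hx _ (hg1 y hy)
      · intro v hv v' hv' h
        rw [Finset.mem_coe, Finset.mem_image] at hv hv'
        obtain ⟨y, hy, rfl⟩ := hv
        obtain ⟨y', hy', rfl⟩ := hv'
        simp only at h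
        rw [hg2 y hy, hg2 y' hy'] at h
        rw [h]
    · push Not at hI
      have hmul : (X.image (fun v => T.lev v (ℓ + 1))).card * M ^ t < X.card := by
        calc (X.image (fun v => T.lev v (ℓ + 1))).card * M ^ t ≤ M * M ^ t :=
              Nat.mul_le_mul_right _ hI.le
          _ = M ^ (t + 1) := by ring
          _ < X.card := hc
      obtain ⟨y, _, hy⟩ := Finset.exists_lt_card_fiber_of_mul_lt_card_of_maps_to
        (fun v hv => Finset.mem_image_of_mem (fun v => T.lev v (ℓ + 1)) hv) hmul
      obtain ⟨ℓ', x', Y, h1, h2, h3, h4, h5⟩ := ih (ℓ + 1) y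
        (X.filter (fun v => T.lev v (ℓ + 1) = y)) (by omega)
        (fun v hv => hd v (Finset.mem_of_mem_filter v hv))
        (fun v hv => (Finset.mem_filter.1 hv).2) hy
      exact ⟨ℓ', x', Y, h1, h2.trans (Finset.filter_subset _ _), h3, h4, h5⟩

theorem gadget_of {d ℓ M : ℕ} {x : V} {S : Finset ℕ} {Y : Finset V} (hℓ : ℓ < d)
    (hd : ∀ v ∈ Y, T.dep v = d) (hS : ∀ v ∈ Y, T.pat v = S) (hM : M ≤ Y.card)
    (hx : ∀ v ∈ Y, T.lev v ℓ = x) (hinj : Set.InjOn (fun v => T.lev v (ℓ + 1)) (Y : Set V)) :
    Gadget G x ((S.filter (fun m => m ≤ ℓ)).image (T.lev x)) (d - ℓ) M := by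
  intro F hF
  have hex : ∃ v ∈ Y, ∀ m, ℓ < m → m ≤ d → T.lev v m ∉ F := by
    by_contra hcon
    push Not at hcon
    choose! g hg1 hg2 hg3 using hcon
    have hle : Y.card ≤ F.card := by
      apply Finset.card_le_card_of_injOn (fun v => T.lev v (g v))
      · intro v hv
        exact hg3 v hv
      · intro v hv v' hv' h
        simp only at h
        have hv1 : v ∈ Y := hv
        have hv2 : v' ∈ Y := hv'
        have a1 := T.dep_lev (v := v) (m := g v) (by rw [hd v hv1]; exact hg2 v hv1)
        have a2 := T.dep_lev (v := v') (m := g v') (by rw [hd v' hv2]; exact hg2 v' hv2)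
        have a3 : g v = g v' := by rw [← a1, ← a2, h]
        apply hinj hv hv'
        simp only
        have b1 := T.lev_lev (u := T.lev v (g v)) (v := v) (T.lev_anc _) (m := ℓ + 1)
          (by rw [a1]; have := hg1 v hv1; omega)
        have b2 := T.lev_lev (u := T.lev v' (g v')) (v := v') (T.lev_anc _) (m := ℓ + 1)
          (by rw [a2]; have := hg1 v' hv2; omega)
        rw [← b1, ← b2, h]
    omega
  obtain ⟨v, hv, hav⟩ := hex
  have hdv := hd v hv
  refine ⟨(List.range (d - ℓ - 1)).map (fun i => T.lev v (ℓ + 1 + i)), v, ?_, ?_, ?_, ?_, ?_⟩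
  · simp; omega
  · have h1 := T.PL_seg (v := v) (ℓ + 1) (d - ℓ) (by omega)
    have h2 : d - ℓ = (d - ℓ - 1) + 1 := by omega
    rw [h2, List.range_succ, List.map_append] at h1
    have h3 : ℓ + 1 + (d - ℓ - 1) = T.dep v := by omega
    simp only [List.map_cons, List.map_nil, h3, T.lev_self] at h1
    exact h1
  · intro z hz
    rw [List.mem_append, List.mem_map, List.mem_singleton] at hz
    rcases hz with ⟨i, hi, rfl⟩ | rfl
    · rw [List.mem_range] at hi
      exact hav _ (by omega) (by omega)
    · have := hav d hℓ le_rfl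
      rwa [← hdv, T.lev_self] at this
  · intro c hc
    have hadj := T.lev_adj (v := v) (m := ℓ) (by omega)
    rw [hx v hv] at hadj
    rcases Nat.eq_zero_or_pos (d - ℓ - 1) with h0 | h0
    · rw [h0] at hc
      simp at hc
      have h1 : ℓ + 1 = T.dep v := by omega
      rw [h1, T.lev_self] at hadj
      rw [← hc]
      exact hadj
    · obtain ⟨e, he⟩ : ∃ e, d - ℓ - 1 = e + 1 := ⟨d - ℓ - 2, by omega⟩
      rw [he, List.range_succ_eq_map] at hc
      simp at hc
      rw [← hc]
      exact hadj
  · intro u hu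
    rw [Finset.mem_image] at hu
    obtain ⟨m, hm, rfl⟩ := hu
    rw [Finset.mem_filter] at hm
    have h1 := hm.1
    rw [← hS v hv, T.mem_pat] at h1
    have h2 : T.lev x m = T.lev v m := by
      apply T.lev_lev
      · rw [← hx v hv]; exact T.lev_anc _
      · rw [← hx v hv, T.dep_lev (by omega)]; exact hm.2
    rw [h2]
    exact h1.2

end RT

end Pool.Agent.Q117.BP
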