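import Mathlib

/-! Long paths from fans. -/

namespace Pool.Agent.Q117.BP

open SimpleGraph

variable {V : Type} [DecidableEq V] {G : SimpleGraph V}

/-- the list is the vertex sequence of a path -/
def PL (G : SimpleGraph V) (l : List V) : Prop := l.Nodup ∧ l.IsChain G.Adj

omit [DecidableEq V] in
theorem PL.append {l1 l2 : List V} (h1 : PL G l1) (h2 : PL G l2)
    (ha : ∀ a ∈ l1.getLast?, ∀ b ∈ l2.head?, G.Adj a b) (hd : ∀ z ∈ l1, z ∉ l2) :
    PL G (l1 ++ l2) := by
  refine ⟨?_, ?_⟩
  · rw [List.nodup_append]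
    refine ⟨h1.1, h2.1, ?_⟩
    rintro a ha' b hb rfl
    exact hd a ha' hb
  · exact List.isChain_append.2 ⟨h1.2, h2.2, ha⟩

omit [DecidableEq V] in
theorem PL.cons {a : V} {l : List V} (h : PL G l) (ha : ∀ b ∈ l.head?, G.Adj a b) (hn : a ∉ l) :
    PL G (a :: l) :=
  ⟨List.nodup_cons.2 ⟨hn, h.1⟩, List.isChain_cons.2 ⟨ha, h.2⟩⟩

omit [DecidableEq V] in
theorem PL.tail {a : V} {l : List V} (h : PL G (a :: l)) : PL G l :=
  ⟨(List.nodup_cons.1 h.1).2, (List.isChain_cons.1 h.2).2⟩

omit [DecidableEq V] in
theorem PL.reverse {l : List V} (h : PL G l) : PL G l.reverse := by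
  refine ⟨List.nodup_reverse.2 h.1, ?_⟩
  rw [List.isChain_reverse]
  exact h.2.imp (fun _ _ hab => G.adj_symm hab)

omit [DecidableEq V] in
theorem PL.left {l1 l2 : List V} (h : PL G (l1 ++ l2)) : PL G l1 :=
  ⟨(List.nodup_append.1 h.1).1, (List.isChain_append.1 h.2).1⟩

omit [DecidableEq V] in
theorem PL.right {l1 l2 : List V} (h : PL G (l1 ++ l2)) : PL G l2 :=
  ⟨(List.nodup_append.1 h.1).2.1, (List.isChain_append.1 h.2).2.1⟩

/-- unlimited supply of paths of `h` vertices starting next to `x` and ending at a vertex adjacent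
to all of `N` -/
def Gadget (G : SimpleGraph V) (x : V) (N : Finset V) (h M : ℕ) : Prop :=
  ∀ F : Finset V, F.card < M → ∃ (p : List V) (v : V), p.length + 1 = h ∧ PL G (p ++ [v]) ∧
    (∀ z ∈ p ++ [v], z ∉ F) ∧ (∀ c ∈ (p ++ [v]).head?, G.Adj x c) ∧ ∀ u ∈ N, G.Adj v u

theorem Gadget.mono {x : V} {N N' : Finset V} {h M : ℕ} (hg : Gadget G x N h M) (hN : N' ⊆ N) :
    Gadget G x N' h M := by
  intro F hF
  obtain ⟨p, v, h1, h2, h3, h4, h5⟩ := hg F hF
  exact ⟨p, v, h1, h2, h3, h4, fun u hu => h5 u (hN hu)⟩

theorem inter {x : V} {N : Finset V} {h M : ℕ} (hg : Gadget G x N h M) :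
    ∀ (k : ℕ) (N0 : Finset V), N0.card = k → N0 ⊆ N → ∀ (v : V) (F : Finset V),
      (∀ u ∈ N0, G.Adj v u) → v ∉ F → v ∉ N0 → Disjoint N0 F → F.card + 3 * k + 2 < M →
      ∃ l, PL G (v :: l) ∧ (∀ z ∈ v :: l, z ∉ F) ∧ l.length = 2 * k := by
  intro k
  induction k with
  | zero =>
    intro N0 _ _ v F _ hv _ _ _
    exact ⟨[], ⟨by simp, by simp⟩, by simpa using hv, rfl⟩
  | succ k ih =>
    intro N0 hk hN v F hadj hv hvN hdis hM
    obtain ⟨u, hu⟩ : N0.Nonempty := by
      rw [← Finset.card_pos, hk]; omega
    obtain ⟨p, w, _, _, h3, _, h5⟩ := hg (insert v (insert u (F ∪ N0))) (by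
      have a1 := Finset.card_insert_le v (insert u (F ∪ N0))
      have a2 := Finset.card_insert_le u (F ∪ N0)
      have a3 := Finset.card_union_le F N0
      omega)
    have hw := h3 w (by simp)
    simp only [Finset.mem_insert, Finset.mem_union, not_or] at hw
    obtain ⟨hwv, hwu, hwF, hwN⟩ := hw
    have huF : u ∉ F := Finset.disjoint_left.1 hdis hu
    have hdis' : Disjoint (N0.erase u) (insert v (insert u F)) := by
      rw [Finset.disjoint_left]
      intro z hz hz'
      rw [Finset.mem_erase] at hz
      simp only [Finset.mem_insert] at hz'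
      rcases hz' with rfl | rfl | hz'
      · exact hvN hz.2
      · exact hz.1 rfl
      · exact Finset.disjoint_left.1 hdis hz.2 hz'
    obtain ⟨l, hl1, hl2, hl3⟩ := ih (N0.erase u) (by rw [Finset.card_erase_of_mem hu, hk]; rfl)
      ((Finset.erase_subset _ _).trans hN) w (insert v (insert u F))
      (fun z hz => h5 z (hN (Finset.mem_of_mem_erase hz)))
      (by simp only [Finset.mem_insert, not_or]; exact ⟨hwv, hwu, hwF⟩)
      (fun hz => hwN (Finset.mem_of_mem_erase hz)) hdis' (by
        have a1 := Finset.card_insert_le v (insert u F)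
        have a2 := Finset.card_insert_le u F
        omega)
    have hav : ∀ z ∈ w :: l, z ≠ v ∧ z ≠ u ∧ z ∉ F := by
      intro z hz
      have := hl2 z hz
      simp only [Finset.mem_insert, not_or] at this
      exact this
    refine ⟨u :: w :: l, ?_, ?_, ?_⟩
    · refine PL.cons (PL.cons hl1 ?_ ?_) ?_ ?_
      · intro b hb
        simp only [List.head?_cons, Option.mem_def, Option.some.injEq] at hb
        rw [← hb]
        exact G.adj_symm (h5 u (hN hu))
      · intro hz
        exact (hav u hz).2.1 rfl
      · intro b hb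
        simp only [List.head?_cons, Option.mem_def, Option.some.injEq] at hb
        rw [← hb]
        exact hadj u hu
      · intro hz
        rw [List.mem_cons] at hz
        rcases hz with hz | hz
        · exact (G.ne_of_adj (hadj u hu)) hz
        · exact (hav v hz).1 rfl
    · intro z hz
      rw [List.mem_cons, List.mem_cons] at hz
      rcases hz with rfl | rfl | hz
      · exact hv
      · exact huF
      · exact (hav z hz).2.2
    · simp only [List.length_cons, hl3]
      ring

theorem pathX {x : V} {N : Finset V} {h M : ℕ} (hg : Gadget G x N h M) (F : Finset V)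
    (hxF : x ∉ F) (hdis : Disjoint N F) (hM : F.card + h + 4 * N.card + 4 < M) :
    ∃ l, PL G (x :: l) ∧ (∀ z ∈ x :: l, z ∉ F) ∧
      (x :: l).length = 1 + h + 2 * (N.erase x).card := by
  obtain ⟨p, v, h1, h2, h3, h4, h5⟩ := hg (insert x (F ∪ N)) (by
    have a1 := Finset.card_insert_le x (F ∪ N)
    have a3 := Finset.card_union_le F N
    omega)
  have hq : ∀ z ∈ p ++ [v], z ≠ x ∧ z ∉ F ∧ z ∉ N := by
    intro z hz
    have := h3 z hz
    simp only [Finset.mem_insert, Finset.mem_union, not_or] at this
    exact this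
  have hv := hq v (by simp)
  have hvp : v ∉ p := by
    intro hvp
    have := (List.nodup_append.1 h2.1).2.2 v hvp v (by simp)
    exact this rfl
  obtain ⟨l, hl1, hl2, hl3⟩ := inter hg (N.erase x).card (N.erase x) rfl (Finset.erase_subset _ _)
    v (insert x (F ∪ p.toFinset)) (fun u hu => h5 u (Finset.mem_of_mem_erase hu))
    (by
      simp only [Finset.mem_insert, Finset.mem_union, List.mem_toFinset, not_or]
      exact ⟨hv.1, hv.2.1, hvp⟩)
    (fun hz => hv.2.2 (Finset.mem_of_mem_erase hz))
    (by
      rw [Finset.disjoint_left]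
      intro z hz hz'
      rw [Finset.mem_erase] at hz
      simp only [Finset.mem_insert, Finset.mem_union, List.mem_toFinset] at hz'
      rcases hz' with hz' | hz' | hz'
      · exact hz.1 hz'
      · exact Finset.disjoint_left.1 hdis hz.2 hz'
      · exact (hq z (by simp [hz'])).2.2 hz.2)
    (by
      have a1 := Finset.card_insert_le x (F ∪ p.toFinset)
      have a3 := Finset.card_union_le F p.toFinset
      have a4 := List.toFinset_card_le p
      have a5 := Finset.card_erase_le (a := x) (s := N)
      omega)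
  have hl2' : ∀ z ∈ v :: l, z ≠ x ∧ z ∉ F ∧ z ∉ p := by
    intro z hz
    have := hl2 z hz
    simp only [Finset.mem_insert, Finset.mem_union, List.mem_toFinset, not_or] at this
    exact this
  refine ⟨p ++ (v :: l), ?_, ?_, ?_⟩
  · refine PL.cons ?_ ?_ ?_
    · refine ⟨?_, ?_⟩
      · rw [List.nodup_append]
        refine ⟨(List.nodup_append.1 h2.1).1, hl1.1, ?_⟩
        rintro a ha b hb rfl
        exact (hl2' a hb).2.2 ha
      · exact List.isChain_split.2 ⟨h2.2, hl1.2⟩
    · intro b hb
      apply h4
      rcases p with _ | ⟨c, p⟩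
      · simpa using hb
      · simpa using hb
    · intro hz
      rw [List.mem_append] at hz
      rcases hz with hz | hz
      · exact (hq x (by simp [hz])).1 rfl
      · exact (hl2' x hz).1 rfl
  · intro z hz
    rw [List.mem_cons, List.mem_append] at hz
    rcases hz with rfl | hz | hz
    · exact hxF
    · exact (hq z (by simp [hz])).2.1
    · exact (hl2' z hz).2.1
  · simp only [List.length_cons, List.length_append, hl3]
    omega

theorem pathU {x u : V} {N : Finset V} {h M : ℕ} (hg : Gadget G x N h M) (hu : u ∈ N) (hux : u ≠ x)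
    (F : Finset V) (hxF : x ∉ F) (hdis : Disjoint N F) (hM : F.card + 2 * h + 4 * N.card + 6 < M) :
    ∃ l, PL G (u :: l) ∧ (∀ z ∈ u :: l, z ∉ F) ∧
      (u :: l).length = 2 + 2 * h + 2 * ((N.erase u).erase x).card := by
  obtain ⟨p, v, h1, h2, h3, h4, h5⟩ := hg (insert x (F ∪ N)) (by
    have a1 := Finset.card_insert_le x (F ∪ N)
    have a3 := Finset.card_union_le F N
    omega)
  have hq : ∀ z ∈ p ++ [v], z ≠ x ∧ z ∉ F ∧ z ∉ N := by
    intro z hz
    have := h3 z hz
    simp only [Finset.mem_insert, Finset.mem_union, not_or] at this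
    exact this
  obtain ⟨l, hl1, hl2, hl3⟩ := pathX (hg.mono (Finset.erase_subset u N))
    (insert u (F ∪ (p ++ [v]).toFinset))
    (by
      simp only [Finset.mem_insert, Finset.mem_union, List.mem_toFinset, not_or]
      exact ⟨hux.symm, hxF, fun hz => (hq x hz).1 rfl⟩)
    (by
      rw [Finset.disjoint_left]
      intro z hz hz'
      rw [Finset.mem_erase] at hz
      simp only [Finset.mem_insert, Finset.mem_union, List.mem_toFinset] at hz'
      rcases hz' with hz' | hz' | hz'
      · exact hz.1 hz'
      · exact Finset.disjoint_left.1 hdis hz.2 hz'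
      · exact (hq z hz').2.2 hz.2)
    (by
      have a1 := Finset.card_insert_le u (F ∪ (p ++ [v]).toFinset)
      have a3 := Finset.card_union_le F (p ++ [v]).toFinset
      have a4 := List.toFinset_card_le (p ++ [v])
      have a5 : (p ++ [v]).length = h := by simp [h1]
      have a6 := Finset.card_erase_of_mem hu
      have a7 : 0 < N.card := Finset.card_pos.2 ⟨u, hu⟩
      omega)
  have hl2' : ∀ z ∈ x :: l, z ≠ u ∧ z ∉ F ∧ z ∉ p ++ [v] := by
    intro z hz
    have := hl2 z hz
    simp only [Finset.mem_insert, Finset.mem_union, List.mem_toFinset, not_or] at this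
    exact this
  refine ⟨(p ++ [v]).reverse ++ (x :: l), ?_, ?_, ?_⟩
  · refine PL.cons (PL.append h2.reverse hl1 ?_ ?_) ?_ ?_
    · intro a ha b hb
      rw [List.getLast?_reverse] at ha
      simp only [List.head?_cons, Option.mem_def, Option.some.injEq] at hb
      rw [← hb]
      exact G.adj_symm (h4 a ha)
    · intro z hz hz'
      rw [List.mem_reverse] at hz
      exact (hl2' z hz').2.2 hz
    · intro b hb
      rw [List.reverse_append] at hb
      simp only [List.reverse_cons, List.reverse_nil, List.nil_append, List.cons_append,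
        List.head?_cons, Option.mem_def, Option.some.injEq] at hb
      rw [← hb]
      exact G.adj_symm (h5 u hu)
    · intro hz
      rw [List.mem_append, List.mem_reverse] at hz
      rcases hz with hz | hz
      · exact (hq u hz).2.2 hu
      · exact (hl2' u hz).1 rfl
  · intro z hz
    rw [List.mem_cons, List.mem_append, List.mem_reverse] at hz
    rcases hz with rfl | hz | hz
    · exact Finset.disjoint_left.1 hdis hu
    · exact (hq z hz).2.1
    · exact (hl2' z hz).2.1
  · rw [List.length_cons, List.length_append, List.length_reverse, hl3]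
    simp only [List.length_append, List.length_cons, List.length_nil]
    omega

/-- paths from a fan -/
theorem fan {x α : V} {N : Finset V} {h M j : ℕ} (hg : Gadget G x N h M)
    (hj : j ≤ N.card + h / 2) (hx : x ∈ N → h % 2 = 1) (hα : α ∈ insert x N)
    (F : Finset V) (hdis : Disjoint (insert x N) F) (hM : F.card + 2 * h + 4 * N.card + 6 < M) :
    ∃ l, PL G (α :: l) ∧ (∀ z ∈ α :: l, z ∉ F) ∧ 2 * j ≤ (α :: l).length ∧
      (α ∉ N → 2 * j + 1 ≤ (α :: l).length) := by
  have hxF : x ∉ F := Finset.disjoint_left.1 hdis (Finset.mem_insert_self _ _)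
  have hNF : Disjoint N F := Finset.disjoint_of_subset_left (Finset.subset_insert _ _) hdis
  by_cases hαx : α = x
  · subst hαx
    obtain ⟨l, h1, h2, h3⟩ := pathX hg F hxF hNF (by omega)
    refine ⟨l, h1, h2, ?_, ?_⟩
    · rw [h3]
      by_cases hxN : α ∈ N
      · have a1 := Finset.card_erase_of_mem hxN
        have a2 : 0 < N.card := Finset.card_pos.2 ⟨α, hxN⟩
        have a3 := hx hxN
        omega
      · rw [Finset.erase_eq_of_notMem hxN]
        omega
    · intro hxN
      rw [h3, Finset.erase_eq_of_notMem hxN]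
      omega
  · have hαN : α ∈ N := by
      rw [Finset.mem_insert] at hα
      exact hα.resolve_left hαx
    obtain ⟨l, h1, h2, h3⟩ := pathU hg hαN hαx F hxF hNF hM
    refine ⟨l, h1, h2, ?_, fun h' => absurd hαN h'⟩
    rw [h3]
    have a1 := Finset.card_erase_of_mem hαN
    have a2 : 0 < N.card := Finset.card_pos.2 ⟨α, hαN⟩
    by_cases hxN : x ∈ N
    · have hx' : x ∈ N.erase α := Finset.mem_erase.2 ⟨fun h' => hαx h'.symm, hxN⟩
      have a4 := Finset.card_erase_of_mem hx'
      have a5 : 0 < (N.erase α).card := Finset.card_pos.2 ⟨x, hx'⟩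
      have a3 := hx hxN
      omega
    · rw [Finset.erase_eq_of_notMem (fun h' => hxN (Finset.mem_of_mem_erase h'))]
      have : h ≥ 1 := by
        obtain ⟨p, v, h1, _⟩ := hg ∅ (by simp; omega)
        omega
      omega

end Pool.Agent.Q117.BP
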