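import Pool.Agent.Q117.BP.Gadget

/-! The lower bound construction, and paths as lists. -/

set_option linter.unusedSectionVars false

namespace Pool.Agent.Q117.BP

open SimpleGraph Finset

theorem PL_of_copy {V : Type} {G : SimpleGraph V} {k : ℕ} (f : Copy (pathGraph k) G) :
    ∃ l, PL G l ∧ l.length = k := by
  refine ⟨List.ofFn f, ⟨?_, ?_⟩, by simp⟩
  · rw [List.nodup_ofFn]
    exact f.injective
  · rw [List.isChain_iff_getElem]
    intro i hi
    simp only [List.getElem_ofFn]
    apply f.toHom.map_adj
    rw [pathGraph_adj]
    left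
    rfl

theorem length_lt_of_free {V : Type} {G : SimpleGraph V} {k : ℕ} (h : (pathGraph k).Free G)
    (l : List V) (hl : PL G l) : l.length < k := by
  by_contra hk
  push Not at hk
  apply h
  refine ⟨⟨⟨fun i => l[i.val]'(by omega), ?_⟩, ?_⟩⟩
  · intro a b hab
    rw [pathGraph_adj] at hab
    have hch := List.isChain_iff_getElem.1 hl.2
    rcases hab with hab | hab
    · have := hch a.val (by omega)
      simp only [hab] at this
      exact this
    · have := hch b.val (by omega)
      simp only [hab] at this
      exact G.adj_symm this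
  · intro a b hab
    have := (List.Nodup.getElem_inj_iff hl.1).1 hab
    exact Fin.ext this

/-- one vertex of the first class is joined to the whole second class, and `q` vertices of the
second class are joined to the whole first class -/
def LG (n q : ℕ) : SimpleGraph (Fin n ⊕ Fin n) :=
  SimpleGraph.fromRel (fun a b => match a, b with
    | Sum.inl i, Sum.inr j => i.val < 1 ∨ j.val < q
    | _, _ => False)

theorem LG_adj_lr {n q : ℕ} (i j : Fin n) :
    (LG n q).Adj (Sum.inl i) (Sum.inr j) ↔ (i.val < 1 ∨ j.val < q) := by
  simp [LG, SimpleGraph.fromRel_adj]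

theorem LG_adj_ll {n q : ℕ} (i j : Fin n) : ¬ (LG n q).Adj (Sum.inl i) (Sum.inl j) := by
  simp [LG, SimpleGraph.fromRel_adj]

theorem LG_adj_rr {n q : ℕ} (i j : Fin n) : ¬ (LG n q).Adj (Sum.inr i) (Sum.inr j) := by
  simp [LG, SimpleGraph.fromRel_adj]

/-- the vertex cover -/
def inC {n : ℕ} (q : ℕ) : Fin n ⊕ Fin n → Bool
  | Sum.inl i => decide (i.val < 1)
  | Sum.inr j => decide (j.val < q)

theorem LG_cover {n q : ℕ} {a b : Fin n ⊕ Fin n} (h : (LG n q).Adj a b) :
    (inC q a = true ∨ inC q b = true) ∧ a.isLeft ≠ b.isLeft := by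
  rcases a with i | i <;> rcases b with j | j
  · exact absurd h (LG_adj_ll i j)
  · rw [LG_adj_lr] at h
    simpa [inC] using h
  · rw [SimpleGraph.adj_comm, LG_adj_lr] at h
    simpa [inC, or_comm] using h
  · exact absurd h (LG_adj_rr i j)

theorem chain_bound {n q : ℕ} : ∀ (m : ℕ) (l : List (Fin n ⊕ Fin n)), l.length = m →
    l.IsChain (LG n q).Adj → l.length ≤ 2 * (l.filter (inC q)).length + 1 ∧
      (l.length = 2 * (l.filter (inC q)).length + 1 →
        ∃ a l', l = a :: l' ∧ ∀ c ∈ l, inC q c = true → c.isLeft ≠ a.isLeft) := by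
  intro m
  induction m using Nat.strong_induction_on with
  | _ m ih =>
    intro l hm hl
    rcases l with _ | ⟨a, _ | ⟨b, l'⟩⟩
    · exact ⟨by simp, by intro h; simp at h⟩
    · refine ⟨by simp, ?_⟩
      intro h
      refine ⟨a, [], rfl, ?_⟩
      intro c hc hcC
      rw [List.mem_singleton] at hc
      rw [hc] at hcC
      simp [hcC] at h
    · rw [List.isChain_cons_cons] at hl
      have hcov := LG_cover hl.1
      by_cases ha : inC q a = true
      · obtain ⟨h1, _⟩ := ih (b :: l').length (by rw [← hm]; simp) (b :: l') rfl hl.2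
        rw [List.filter_cons_of_pos (by exact ha)]
        simp only [List.length_cons] at h1 ⊢
        exact ⟨by omega, by intro h; omega⟩
      · have hb : inC q b = true := by
          rcases hcov.1 with h | h
          · exact absurd h ha
          · exact h
        have hl' : l'.IsChain (LG n q).Adj := (List.isChain_cons.1 hl.2).2
        obtain ⟨h1, h2⟩ := ih l'.length (by rw [← hm]; simp) l' rfl hl'
        rw [List.filter_cons_of_neg (by simpa using ha), List.filter_cons_of_pos (by exact hb)]
        simp only [List.length_cons] at h1 ⊢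
        refine ⟨by omega, ?_⟩
        intro h
        obtain ⟨a', l'', hll, h3⟩ := h2 (by omega)
        refine ⟨a, b :: l', rfl, ?_⟩
        have hba' : (LG n q).Adj b a' := by
          have := (List.isChain_cons.1 hl.2).1
          apply this
          rw [hll]; simp
        have h4 := (LG_cover hba').2
        have h5 := hcov.2
        intro c hc hcC
        rw [List.mem_cons, List.mem_cons] at hc
        rcases hc with rfl | rfl | hc
        · exact absurd hcC ha
        · exact h5.symm
        · have h6 := h3 c hc hcC
          revert h4 h5 h6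
          cases c.isLeft <;> cases a.isLeft <;> cases b.isLeft <;> cases a'.isLeft <;> simp

theorem LG_path {n q : ℕ} (hn : 1 ≤ n) (hq : 1 ≤ q) (l : List (Fin n ⊕ Fin n))
    (hl : PL (LG n q) l) : l.length ≤ 2 * (q + 1) := by
  classical
  by_contra hcon
  push Not at hcon
  obtain ⟨h1, h2⟩ := chain_bound l.length l rfl hl.2
  have hsub : (l.filter (inC q)).toFinset ⊆ univ.filter (fun v => inC q v = true) := by
    intro v hv
    rw [List.mem_toFinset, List.mem_filter] at hv
    rw [mem_filter]
    exact ⟨mem_univ _, hv.2⟩
  have hcard : (univ.filter (fun v : Fin n ⊕ Fin n => inC q v = true)).card ≤ q + 1 := by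
    have : (univ.filter (fun v : Fin n ⊕ Fin n => inC q v = true)).card
        ≤ (range (q + 1)).card := by
      apply card_le_card_of_injOn
        (fun v => match v with | Sum.inl _ => q | Sum.inr j => j.val)
      · intro v hv
        rw [mem_coe, mem_filter] at hv
        rcases v with i | j
        · simp
        · have := hv.2
          simp only [inC, decide_eq_true_eq] at this
          simp only [coe_range, Set.mem_Iio]
          omega
      · intro v hv w hw h
        rw [mem_coe, mem_filter] at hv hw
        rcases v with i | i <;> rcases w with j | j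
        · have a1 := hv.2
          have a2 := hw.2
          simp only [inC, decide_eq_true_eq] at a1 a2
          congr 1
          exact Fin.ext (by omega)
        · have a2 := hw.2
          simp only [inC, decide_eq_true_eq] at a2
          simp only at h
          omega
        · have a2 := hv.2
          simp only [inC, decide_eq_true_eq] at a2
          simp only at h
          omega
        · simp only at h
          congr 1
          exact Fin.ext h
    simpa using this
  have hlen : (l.filter (inC q)).toFinset.card = (l.filter (inC q)).length :=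
    List.toFinset_card_of_nodup (hl.1.filter _)
  have hle := card_le_card hsub
  have heq : (l.filter (inC q)).toFinset = univ.filter (fun v => inC q v = true) :=
    eq_of_subset_of_card_le hsub (by omega)
  obtain ⟨a, l', _, h3⟩ := h2 (by omega)
  have m1 : (Sum.inl ⟨0, by omega⟩ : Fin n ⊕ Fin n) ∈ (l.filter (inC q)).toFinset := by
    rw [heq, mem_filter]; exact ⟨mem_univ _, by simp [inC]⟩
  have m2 : (Sum.inr ⟨0, by omega⟩ : Fin n ⊕ Fin n) ∈ (l.filter (inC q)).toFinset := by
    rw [heq, mem_filter]; exact ⟨mem_univ _, by simp [inC]; omega⟩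
  rw [List.mem_toFinset, List.mem_filter] at m1 m2
  have e1 := h3 _ m1.1 m1.2
  have e2 := h3 _ m2.1 m2.2
  revert e1 e2
  cases a.isLeft <;> simp

theorem LG_connected {n q : ℕ} (hn : 1 ≤ n) (hq : 1 ≤ q) : (LG n q).Connected := by
  have h1 : ∀ j : Fin n, (LG n q).Adj (Sum.inl ⟨0, by omega⟩) (Sum.inr j) := by
    intro j
    rw [LG_adj_lr]
    left
    simp
  have h2 : ∀ i : Fin n, (LG n q).Adj (Sum.inl i) (Sum.inr ⟨0, by omega⟩) := by
    intro i
    rw [LG_adj_lr]
    right
    exact hq
  have h : ∀ x : Fin n ⊕ Fin n, (LG n q).Reachable (Sum.inl ⟨0, by omega⟩) x := by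
    rintro (i | j)
    · exact (h1 ⟨0, by omega⟩).reachable.trans (h2 i).reachable.symm
    · exact (h1 j).reachable
  have : Nonempty (Fin n ⊕ Fin n) := ⟨Sum.inl ⟨0, by omega⟩⟩
  exact ⟨fun x y => (h x).symm.trans (h y)⟩

theorem LG_le {n q : ℕ} : LG n q ≤ completeBipartiteGraph (Fin n) (Fin n) := by
  intro a b h
  have := (LG_cover h).2
  rw [completeBipartiteGraph_adj]
  revert this
  rcases a with i | i <;> rcases b with j | j <;> simp

theorem LG_edges {n q : ℕ} (hn : 1 ≤ n) (hq : q ≤ n) :
    n + (n - 1) * q ≤ Nat.card (LG n q).edgeSet := by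
  classical
  have hfin : Nat.card (LG n q).edgeSet = (LG n q).edgeFinset.card := by
    rw [Nat.card_eq_fintype_card, edgeFinset_card]
  rw [hfin]
  have hsub : ((univ : Finset (Fin n × Fin n)).filter (fun p => p.1.val < 1 ∨ p.2.val < q)).image
      (fun p => s(Sum.inl p.1, Sum.inr p.2)) ⊆ (LG n q).edgeFinset := by
    intro e he
    rw [mem_image] at he
    obtain ⟨p, hp, rfl⟩ := he
    rw [mem_filter] at hp
    rw [mem_edgeFinset, mem_edgeSet, LG_adj_lr]
    exact hp.2
  have hinj : Function.Injective
      (fun p : Fin n × Fin n => (s(Sum.inl p.1, Sum.inr p.2) : Sym2 (Fin n ⊕ Fin n))) := by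
    rintro ⟨a, b⟩ ⟨c, d⟩ h
    simp only [Sym2.eq_iff, Sum.inl.injEq, Sum.inr.injEq, reduceCtorEq, and_self, or_false] at h
    exact Prod.ext h.1 h.2
  refine le_trans ?_ (card_le_card hsub)
  rw [card_image_of_injective _ hinj]
  have h1 : (univ.filter (fun p : Fin n × Fin n => p.1.val < 1)).card = n := by
    have : univ.filter (fun p : Fin n × Fin n => p.1.val < 1)
        = {(⟨0, by omega⟩ : Fin n)} ×ˢ (univ : Finset (Fin n)) := by
      ext ⟨a, b⟩
      simp only [mem_filter, mem_univ, true_and, mem_product, mem_singleton, and_true]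
      constructor
      · intro h; exact Fin.ext (by simp; omega)
      · intro h; rw [h]; simp
    rw [this, card_product]
    simp
  have h2 : (univ.filter (fun p : Fin n × Fin n => ¬ p.1.val < 1 ∧ p.2.val < q)).card
      = (n - 1) * q := by
    have : univ.filter (fun p : Fin n × Fin n => ¬ p.1.val < 1 ∧ p.2.val < q)
        = (univ.filter (fun i : Fin n => ¬ i.val < 1)) ×ˢ
          (univ.filter (fun j : Fin n => j.val < q)) := by
      ext ⟨a, b⟩
      simp
    rw [this, card_product]
    congr 1
    · have e1 : (univ.filter (fun i : Fin n => i.val < 1)).card = 1 := by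
        rw [Fin.card_filter_val_lt]; omega
      have e2 := Finset.card_filter_add_card_filter_not (s := (univ : Finset (Fin n)))
        (fun i : Fin n => i.val < 1)
      rw [card_univ, Fintype.card_fin] at e2
      omega
    · rw [Fin.card_filter_val_lt]; omega
  have hunion : univ.filter (fun p : Fin n × Fin n => p.1.val < 1 ∨ p.2.val < q)
      = univ.filter (fun p : Fin n × Fin n => p.1.val < 1)
        ∪ univ.filter (fun p : Fin n × Fin n => ¬ p.1.val < 1 ∧ p.2.val < q) := by
    ext p
    simp only [mem_filter, mem_univ, true_and, mem_union]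
    tauto
  rw [hunion, card_union_of_disjoint, h1, h2]
  rw [Finset.disjoint_left]
  intro p hp hp'
  rw [mem_filter] at hp hp'
  exact hp'.2.1 hp.2

end Pool.Agent.Q117.BP
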