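import Mathlib

/-! Normal (depth first) spanning trees of finite connected graphs. -/

namespace Pool.Agent.Q117.BP

open SimpleGraph

variable {V : Type}

/-- a rooted spanning tree, given by parents and depths -/
structure RT (G : SimpleGraph V) (r : V) where
  par : V → V
  dep : V → ℕ
  dep_root : dep r = 0
  step : ∀ v, v ≠ r → G.Adj v (par v) ∧ dep v = dep (par v) + 1

variable {G : SimpleGraph V} {r : V}

namespace RT

variable (T : RT G r)

/-- `u` is an ancestor of `v` (or `v` itself) -/
def anc (u v : V) : Prop := ∃ i, i ≤ T.dep v ∧ T.par^[i] v = u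

theorem eq_root {v : V} (h : T.dep v = 0) : v = r := by
  by_contra hv
  have := (T.step v hv).2
  omega

theorem ne_root {v : V} (h : T.dep v ≠ 0) : v ≠ r := by
  rintro rfl
  exact h T.dep_root

theorem dep_iter {v : V} : ∀ {i : ℕ}, i ≤ T.dep v → T.dep (T.par^[i] v) = T.dep v - i := by
  intro i
  induction i with
  | zero => intro _; simp
  | succ i ih =>
    intro h
    have h1 := ih (by omega)
    rw [Function.iterate_succ_apply']
    have h2 : T.par^[i] v ≠ r := T.ne_root (by omega)
    have h3 := (T.step _ h2).2
    omega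

theorem anc_refl (v : V) : T.anc v v := ⟨0, Nat.zero_le _, rfl⟩

theorem dep_le {u v : V} (h : T.anc u v) : T.dep u ≤ T.dep v := by
  obtain ⟨i, hi, rfl⟩ := h
  rw [T.dep_iter hi]
  omega

theorem iter_eq {u v : V} (h : T.anc u v) : T.par^[T.dep v - T.dep u] v = u := by
  obtain ⟨i, hi, rfl⟩ := h
  rw [T.dep_iter hi]
  congr 1
  omega

theorem anc_iter {v : V} {i : ℕ} (hi : i ≤ T.dep v) : T.anc (T.par^[i] v) v := ⟨i, hi, rfl⟩

theorem anc_root (v : V) : T.anc r v := by
  refine ⟨T.dep v, le_rfl, ?_⟩
  apply T.eq_root
  rw [T.dep_iter le_rfl]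
  omega

theorem anc_trans {u v w : V} (h1 : T.anc u v) (h2 : T.anc v w) : T.anc u w := by
  have e1 := T.iter_eq h1
  have e2 := T.iter_eq h2
  have d1 := T.dep_le h1
  have d2 := T.dep_le h2
  refine ⟨T.dep w - T.dep u, by omega, ?_⟩
  have : T.dep w - T.dep u = (T.dep v - T.dep u) + (T.dep w - T.dep v) := by omega
  rw [this, Function.iterate_add_apply, e2, e1]

theorem anc_antisymm {u v : V} (h1 : T.anc u v) (h2 : T.anc v u) : u = v := by
  have d1 := T.dep_le h1
  have d2 := T.dep_le h2
  have e1 := T.iter_eq h1
  have : T.dep v - T.dep u = 0 := by omega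
  rw [this] at e1
  exact e1.symm

theorem anc_par {v : V} (hv : v ≠ r) : T.anc (T.par v) v :=
  ⟨1, by have := (T.step v hv).2; omega, rfl⟩

theorem anc_par_of_ne {u v : V} (h : T.anc u v) (hne : u ≠ v) : v ≠ r ∧ T.anc u (T.par v) := by
  obtain ⟨i, hi, rfl⟩ := h
  rcases i with _ | i
  · exact absurd rfl hne
  · have hv : v ≠ r := T.ne_root (by omega)
    refine ⟨hv, i, ?_, ?_⟩
    · have := (T.step v hv).2; omega
    · rw [Function.iterate_succ_apply]

theorem eq_of_anc_root {v : V} (h : T.anc v r) : v = r := by
  have := T.dep_le h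
  rw [T.dep_root] at this
  exact T.eq_root (by omega)

/-- ancestors of a common vertex are comparable -/
theorem anc_total {u v w : V} (h1 : T.anc u w) (h2 : T.anc v w) (hd : T.dep u ≤ T.dep v) :
    T.anc u v := by
  have e1 := T.iter_eq h1
  have e2 := T.iter_eq h2
  have d1 := T.dep_le h1
  have d2 := T.dep_le h2
  refine ⟨T.dep v - T.dep u, by omega, ?_⟩
  rw [← e2, ← Function.iterate_add_apply]
  rw [e2]
  have : T.dep v - T.dep u + (T.dep w - T.dep v) = T.dep w - T.dep u := by omega
  rw [this, e1]

theorem anc_eq_of_dep {u v w : V} (h1 : T.anc u w) (h2 : T.anc v w) (hd : T.dep u = T.dep v) :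
    u = v := by
  rw [← T.iter_eq h1, ← T.iter_eq h2, hd]

theorem dep_lt_card [Fintype V] (v : V) : T.dep v < Fintype.card V := by
  have hinj : Function.Injective (fun i : Fin (T.dep v + 1) => T.par^[i.val] v) := by
    intro i j hij
    have h1 := T.dep_iter (v := v) (i := i.val) (by omega)
    have h2 := T.dep_iter (v := v) (i := j.val) (by omega)
    simp only at hij
    rw [hij, h2] at h1
    ext
    omega
  have := Fintype.card_le_of_injective _ hinj
  rw [Fintype.card_fin] at this
  omega

open Classical in
/-- hang `v` below `u` -/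
noncomputable def rehang (u v : V) (hadj : G.Adj u v) (h : ¬ T.anc v u) (hd : T.dep v ≤ T.dep u) :
    RT G r where
  par w := if w = v then u else T.par w
  dep w := if T.anc v w then T.dep w + (T.dep u + 1 - T.dep v) else T.dep w
  dep_root := by
    rw [if_neg, T.dep_root]
    intro h'
    have := T.eq_of_anc_root h'
    rw [this] at h
    exact h (T.anc_root u)
  step := by
    intro w hw
    by_cases hwv : w = v
    · rw [if_pos hwv, hwv, if_pos (T.anc_refl v), if_neg h]
      exact ⟨hadj.symm, by omega⟩
    · rw [if_neg hwv]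
      have hs := T.step w hw
      refine ⟨hs.1, ?_⟩
      by_cases ha : T.anc v w
      · have hb := (T.anc_par_of_ne ha (Ne.symm hwv)).2
        rw [if_pos ha, if_pos hb]
        omega
      · have hb : ¬ T.anc v (T.par w) := fun hb => ha (T.anc_trans hb (T.anc_par hw))
        rw [if_neg ha, if_neg hb]
        exact hs.2

theorem rehang_sum [Fintype V] (u v : V) (hadj : G.Adj u v) (h : ¬ T.anc v u)
    (hd : T.dep v ≤ T.dep u) :
    ∑ w, T.dep w < ∑ w, (T.rehang u v hadj h hd).dep w := by
  classical
  apply Finset.sum_lt_sum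
  · intro w _
    change T.dep w ≤ if T.anc v w then T.dep w + (T.dep u + 1 - T.dep v) else T.dep w
    split_ifs <;> omega
  · refine ⟨v, Finset.mem_univ _, ?_⟩
    change T.dep v < if T.anc v v then T.dep v + (T.dep u + 1 - T.dep v) else T.dep v
    rw [if_pos (T.anc_refl v)]
    omega

/-- every edge joins a vertex to an ancestor -/
def Normal : Prop := ∀ u v, G.Adj u v → T.anc u v ∨ T.anc v u

end RT

theorem exists_RT (hG : G.Connected) (r : V) : Nonempty (RT G r) := by
  classical
  have key : ∀ v, v ≠ r → ∃ w, G.Adj v w ∧ G.dist v r = G.dist w r + 1 := by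
    intro v hv
    obtain ⟨p, hp⟩ := (hG v r).exists_walk_length_eq_dist
    cases p with
    | nil => exact absurd rfl hv
    | cons h q =>
      rename_i w
      refine ⟨w, h, ?_⟩
      have h1 : G.dist w r ≤ q.length := SimpleGraph.dist_le q
      rw [Walk.length_cons] at hp
      obtain ⟨p', hp'⟩ := (hG w r).exists_walk_length_eq_dist
      have h2 : G.dist v r ≤ (Walk.cons h p').length := SimpleGraph.dist_le _
      rw [Walk.length_cons] at h2
      omega
  refine ⟨⟨fun v => if h : v = r then r else (key v h).choose, fun v => G.dist v r, ?_, ?_⟩⟩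
  · simp
  · intro v hv
    rw [dif_neg hv]
    exact (key v hv).choose_spec

theorem exists_normal [Fintype V] (hG : G.Connected) (r : V) : ∃ T : RT G r, T.Normal := by
  classical
  obtain ⟨T0⟩ := exists_RT hG r
  have key : ∀ k : ℕ, ∀ T : RT G r, Fintype.card V * Fintype.card V - ∑ w, T.dep w = k →
      ∃ T : RT G r, T.Normal := by
    intro k
    induction k using Nat.strong_induction_on with
    | _ k ih =>
      intro T hT
      by_cases hN : T.Normal
      · exact ⟨T, hN⟩
      · unfold RT.Normal at hN
        push Not at hN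
        obtain ⟨u, v, hadj, h1, h2⟩ := hN
        have hbound : ∀ T' : RT G r, ∑ w, T'.dep w ≤ Fintype.card V * Fintype.card V := by
          intro T'
          calc ∑ w, T'.dep w ≤ ∑ _w : V, Fintype.card V :=
                Finset.sum_le_sum (fun w _ => (T'.dep_lt_card w).le)
            _ = Fintype.card V * Fintype.card V := by simp
        rcases le_total (T.dep v) (T.dep u) with hd | hd
        · have hs := T.rehang_sum u v hadj h2 hd
          have hb := hbound (T.rehang u v hadj h2 hd)
          exact ih _ (by omega) (T.rehang u v hadj h2 hd) rfl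
        · have hs := T.rehang_sum v u hadj.symm h1 hd
          have hb := hbound (T.rehang v u hadj.symm h1 hd)
          exact ih _ (by omega) (T.rehang v u hadj.symm h1 hd) rfl
  exact key _ T0 rfl

end Pool.Agent.Q117.BP
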