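import Pool.Agent.Q117.BP.Flower

/-! The upper bound for the number of edges. -/

set_option linter.unusedSectionVars false

namespace Pool.Agent.Q117.BP

open SimpleGraph Finset

variable {V : Type} [DecidableEq V] {G : SimpleGraph V} {r : V}

theorem big_set (T : RT G r) (col : V → Bool) (hc : ∀ u v, G.Adj u v → col u ≠ col v) {L M j : ℕ}
    (hL : ∀ l, PL G l → l.length ≤ L) (hM : 1 ≤ M) (c : Bool) (X : Finset V)
    (hX : ∀ v ∈ X, col v = c ∧ j ≤ (T.pat v).card) (hcard : 2 ^ L * L * M ^ L < X.card) :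
    ∃ (x : V) (N : Finset V) (h : ℕ), Gadget G x N h M ∧ j ≤ N.card + h / 2 ∧
      (x ∈ N → h % 2 = 1) ∧ N.card ≤ L ∧ h ≤ L ∧ (∀ u ∈ N, col u ≠ c) ∧ ∀ u ∈ N, T.anc u x := by
  have hmaps : ∀ v ∈ X, (T.pat v, T.dep v) ∈ (range L).powerset ×ˢ range L := by
    intro v _
    rw [mem_product, mem_powerset, mem_range]
    refine ⟨?_, T.dep_lt hL v⟩
    intro m hm
    have h1 := (T.mem_pat.1 hm).1
    have h2 := T.dep_lt hL v
    rw [mem_range]
    omega
  obtain ⟨⟨S, d⟩, _, hSd⟩ := Finset.exists_lt_card_fiber_of_mul_lt_card_of_maps_to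
    (f := fun v => (T.pat v, T.dep v)) hmaps (n := M ^ L) (by
      rw [card_product, card_powerset, card_range]
      exact hcard)
  have hfib : ∀ v ∈ X.filter (fun v => (T.pat v, T.dep v) = (S, d)),
      v ∈ X ∧ T.pat v = S ∧ T.dep v = d := by
    intro v hv
    rw [mem_filter, Prod.mk.injEq] at hv
    exact hv
  have hdL : d ≤ L := by
    have hne : (X.filter (fun v => (T.pat v, T.dep v) = (S, d))).Nonempty := by
      rw [← card_pos]; omega
    obtain ⟨v, hv⟩ := hne
    have := T.dep_lt hL v
    rw [(hfib v hv).2.2] at this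
    omega
  obtain ⟨ℓ, x, Y, hℓ, hYX, hYM, hYx, hYinj⟩ := T.sunflower (d := d) hM d 0 r
    (X.filter (fun v => (T.pat v, T.dep v) = (S, d))) (by omega)
    (fun v hv => (hfib v hv).2.2) (fun v _ => T.lev_zero v)
    (lt_of_le_of_lt (Nat.pow_le_pow_right hM hdL) hSd)
  have hY : ∀ v ∈ Y, v ∈ X ∧ T.pat v = S ∧ T.dep v = d := fun v hv => hfib v (hYX hv)
  have hg := T.gadget_of hℓ (fun v hv => (hY v hv).2.2) (fun v hv => (hY v hv).2.1) hYM hYx hYinj
  obtain ⟨v, hv⟩ : Y.Nonempty := by
    rw [← card_pos]; omega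
  obtain ⟨hvX, hvS, hvd⟩ := hY v hv
  have hxv := hYx v hv
  have hdx : T.dep x = ℓ := by
    rw [← hxv]; exact T.dep_lev (by omega)
  have hlev : ∀ m, m ≤ ℓ → T.lev x m = T.lev v m := by
    intro m hm
    apply T.lev_lev
    · rw [← hxv]; exact T.lev_anc _
    · rw [hdx]; exact hm
  have hNcard : ((S.filter (fun m => m ≤ ℓ)).image (T.lev x)).card
      = (S.filter (fun m => m ≤ ℓ)).card := by
    apply card_image_of_injOn
    intro m hm m' hm' he
    rw [mem_coe, mem_filter] at hm hm'
    exact T.lev_inj (by omega) (by omega) he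
  refine ⟨x, (S.filter (fun m => m ≤ ℓ)).image (T.lev x), d - ℓ, hg, ?_, ?_, ?_, ?_, ?_, ?_⟩
  · rw [hNcard]
    have h1 : (S.filter (fun m => ¬ m ≤ ℓ)).card ≤ (d - ℓ) / 2 := by
      apply RT.card_odd
      intro m hm
      rw [mem_filter] at hm
      have h2 := hm.1
      rw [← hvS] at h2
      have h3 := T.pat_odd col hc h2
      have h4 := (T.mem_pat.1 h2).1
      rw [hvd] at h3 h4
      exact ⟨by omega, h4, h3⟩
    have h2 := Finset.card_filter_add_card_filter_not (s := S) (fun m => m ≤ ℓ)
    have h3 := (hX v hvX).2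
    rw [hvS] at h3
    omega
  · intro hx
    rw [mem_image] at hx
    obtain ⟨m, hm, hmx⟩ := hx
    rw [mem_filter] at hm
    have h1 : m = ℓ := by
      have := congrArg T.dep hmx
      rw [T.dep_lev (by omega), hdx] at this
      exact this
    have h2 := hm.1
    rw [← hvS] at h2
    have h3 := T.pat_odd col hc h2
    rw [hvd, h1] at h3
    exact h3
  · rw [hNcard]
    calc (S.filter (fun m => m ≤ ℓ)).card ≤ S.card := card_filter_le _ _
      _ ≤ (range L).card := by
        apply card_le_card
        intro m hm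
        rw [← hvS] at hm
        have := (T.mem_pat.1 hm).1
        rw [mem_range]
        omega
      _ = L := card_range L
  · omega
  · intro u hu
    rw [mem_image] at hu
    obtain ⟨m, hm, rfl⟩ := hu
    rw [mem_filter] at hm
    have h2 := hm.1
    rw [← hvS] at h2
    have h3 := (T.mem_pat.1 h2).2
    rw [hlev m hm.2]
    have h4 := hc _ _ h3
    rw [(hX v hvX).1] at h4
    exact h4.symm
  · intro u hu
    rw [mem_image] at hu
    obtain ⟨m, hm, rfl⟩ := hu
    exact T.lev_anc m

theorem not_both (hG : G.Connected) (T : RT G r) (col : V → Bool)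
    (hc : ∀ u v, G.Adj u v → col u ≠ col v) {L j j' : ℕ}
    (hL : ∀ l, PL G l → l.length ≤ L) (X X' : Finset V)
    (hX : ∀ v ∈ X, col v = true ∧ j ≤ (T.pat v).card)
    (hX' : ∀ v ∈ X', col v = false ∧ j' ≤ (T.pat v).card)
    (hcard : 2 ^ L * L * (12 * L + 21) ^ L < X.card)
    (hcard' : 2 ^ L * L * (12 * L + 21) ^ L < X'.card) : 2 * j + 2 * j' ≤ L := by
  obtain ⟨x, N, h, a1, a2, a3, a4, a5, a6, a7⟩ := big_set T col hc hL (by omega) true X hX hcard
  obtain ⟨y, N', h', b1, b2, b3, b4, b5, b6, b7⟩ :=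
    big_set T col hc hL (by omega) false X' hX' hcard'
  have hNN : Disjoint N N' := by
    rw [Finset.disjoint_left]
    intro z hz hz'
    have h1 := a6 z hz
    have h2 := b6 z hz'
    revert h1 h2
    cases col z <;> simp
  refine combine hG hL a1 b1 a2 a3 b2 b3 hNN ?_ a4 b4 a5 b5 (by omega)
  rintro ⟨h1, h2⟩
  have h3 := T.anc_antisymm (b7 x h1) (a7 y h2)
  rw [h3] at h1
  exact Finset.disjoint_left.1 hNN h2 h1

variable [Fintype V] [DecidableRel G.Adj]

theorem card_edges (T : RT G r) (hT : T.Normal) : G.edgeFinset.card = ∑ v, (T.pat v).card := by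
  classical
  have h1 := G.sum_degrees_eq_twice_card_edges
  have hup : ∀ v, (univ.filter (fun u => G.Adj v u ∧ T.anc u v)).card = (T.pat v).card := by
    intro v
    symm
    apply Finset.card_bij (fun m _ => T.lev v m)
    · intro m hm
      rw [mem_filter]
      exact ⟨mem_univ _, (T.mem_pat.1 hm).2, T.lev_anc m⟩
    · intro m hm m' hm' he
      exact T.lev_inj (T.mem_pat.1 hm).1.le (T.mem_pat.1 hm').1.le he
    · intro u hu
      rw [mem_filter] at hu
      refine ⟨T.dep u, ?_, T.lev_of_anc hu.2.2⟩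
      rw [T.mem_pat, T.lev_of_anc hu.2.2]
      refine ⟨?_, hu.2.1⟩
      rcases lt_or_eq_of_le (T.dep_le hu.2.2) with h | h
      · exact h
      · exfalso
        have h2 := T.iter_eq hu.2.2
        rw [h, Nat.sub_self] at h2
        have h3 : v = u := h2
        exact G.ne_of_adj hu.2.1 h3
  have hdeg : ∀ v, G.degree v = (univ.filter (fun u => G.Adj v u ∧ T.anc u v)).card
      + (univ.filter (fun u => G.Adj v u ∧ T.anc v u)).card := by
    intro v
    rw [← card_neighborFinset_eq_degree, ← card_union_of_disjoint]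
    · congr 1
      ext u
      rw [mem_neighborFinset, mem_union, mem_filter, mem_filter]
      constructor
      · intro h
        rcases hT u v h.symm with h' | h'
        · exact Or.inl ⟨mem_univ _, h, h'⟩
        · exact Or.inr ⟨mem_univ _, h, h'⟩
      · rintro (h | h)
        · exact h.2.1
        · exact h.2.1
    · rw [Finset.disjoint_left]
      intro u hu hu'
      rw [mem_filter] at hu hu'
      exact G.ne_of_adj hu.2.1 (T.anc_antisymm hu'.2.2 hu.2.2)
  have hswap : ∑ v, (univ.filter (fun u => G.Adj v u ∧ T.anc v u)).card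
      = ∑ v, (univ.filter (fun u => G.Adj v u ∧ T.anc u v)).card := by
    simp only [card_filter]
    rw [sum_comm]
    apply sum_congr rfl
    intro v _
    apply sum_congr rfl
    intro u _
    simp only [G.adj_comm u v]
  rw [sum_congr rfl (fun v _ => hdeg v), sum_add_distrib, hswap] at h1
  rw [sum_congr rfl (fun v _ => hup v)] at h1
  omega

theorem count_le (f : V → ℕ) (col : V → Bool) {s n K : ℕ} (hf : ∀ v, f v ≤ s)
    (h1 : (univ.filter (fun v => col v = true)).card ≤ n)
    (h2 : (univ.filter (fun v => col v = false)).card ≤ n)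
    (h : ∀ j ∈ Icc 1 s, (univ.filter (fun v => col v = true ∧ j ≤ f v)).card ≤ K ∨
      (univ.filter (fun v => col v = false ∧ s + 1 - j ≤ f v)).card ≤ K) :
    ∑ v, f v ≤ s * (n + K) := by
  classical
  have e1 : ∀ v, f v = ∑ j ∈ Icc 1 s, if j ≤ f v then 1 else 0 := by
    intro v
    rw [← card_filter]
    have : (Icc 1 s).filter (fun j => j ≤ f v) = Icc 1 (f v) := by
      ext j
      rw [mem_filter, mem_Icc, mem_Icc]
      have := hf v
      omega
    rw [this, Nat.card_Icc]
    omega
  have e2 : ∀ v, f v = ∑ j ∈ Icc 1 s, if s + 1 - j ≤ f v then 1 else 0 := by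
    intro v
    rw [← card_filter]
    have : (Icc 1 s).filter (fun j => s + 1 - j ≤ f v) = Icc (s + 1 - f v) s := by
      ext j
      rw [mem_filter, mem_Icc, mem_Icc]
      have := hf v
      omega
    rw [this, Nat.card_Icc]
    have := hf v
    omega
  have hsplit : ∑ v, f v = ∑ v ∈ univ.filter (fun v => col v = true), f v
      + ∑ v ∈ univ.filter (fun v => col v = false), f v := by
    rw [← sum_filter_add_sum_filter_not univ (fun v => col v = true)]
    congr 1
    apply sum_congr
    · ext v; simp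
    · intro _ _; rfl
  have s1 : ∑ v ∈ univ.filter (fun v => col v = true), f v
      = ∑ j ∈ Icc 1 s, (univ.filter (fun v => col v = true ∧ j ≤ f v)).card := by
    rw [sum_congr rfl (fun v _ => e1 v), sum_comm]
    apply sum_congr rfl
    intro j _
    rw [← card_filter, filter_filter]
  have s2 : ∑ v ∈ univ.filter (fun v => col v = false), f v
      = ∑ j ∈ Icc 1 s, (univ.filter (fun v => col v = false ∧ s + 1 - j ≤ f v)).card := by
    rw [sum_congr rfl (fun v _ => e2 v), sum_comm]
    apply sum_congr rfl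
    intro j _
    rw [← card_filter, filter_filter]
  rw [hsplit, s1, s2, ← sum_add_distrib]
  calc ∑ j ∈ Icc 1 s, ((univ.filter (fun v => col v = true ∧ j ≤ f v)).card
        + (univ.filter (fun v => col v = false ∧ s + 1 - j ≤ f v)).card)
      ≤ ∑ _j ∈ Icc 1 s, (n + K) := by
        apply sum_le_sum
        intro j hj
        have b1 : (univ.filter (fun v => col v = true ∧ j ≤ f v)).card ≤ n :=
          (card_le_card (fun v hv => by
            rw [mem_filter] at hv ⊢
            exact ⟨hv.1, hv.2.1⟩)).trans h1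
        have b2 : (univ.filter (fun v => col v = false ∧ s + 1 - j ≤ f v)).card ≤ n :=
          (card_le_card (fun v hv => by
            rw [mem_filter] at hv ⊢
            exact ⟨hv.1, hv.2.1⟩)).trans h2
        rcases h j hj with h' | h' <;> omega
    _ = s * (n + K) := by simp

/-- the constant of the upper bound -/
def KK (s : ℕ) : ℕ := 2 ^ (2 * s + 1) * (2 * s + 1) * (12 * (2 * s + 1) + 21) ^ (2 * s + 1)

theorem upper (hG : G.Connected) (col : V → Bool) (hc : ∀ u v, G.Adj u v → col u ≠ col v)
    {s n : ℕ} (hL : ∀ l, PL G l → l.length ≤ 2 * s + 1)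
    (h1 : (univ.filter (fun v => col v = true)).card ≤ n)
    (h2 : (univ.filter (fun v => col v = false)).card ≤ n) :
    G.edgeFinset.card ≤ s * (n + KK s) := by
  obtain ⟨r⟩ := hG.nonempty
  obtain ⟨T, hT⟩ := exists_normal hG r
  rw [card_edges T hT]
  apply count_le _ col (fun v => T.pat_card_le col hc hL v) h1 h2
  intro j hj
  rw [mem_Icc] at hj
  by_contra hcon
  push Not at hcon
  have := not_both hG T col hc hL (j := j) (j' := s + 1 - j)
    (univ.filter (fun v => col v = true ∧ j ≤ (T.pat v).card))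
    (univ.filter (fun v => col v = false ∧ s + 1 - j ≤ (T.pat v).card))
    (fun v hv => (mem_filter.1 hv).2) (fun v hv => (mem_filter.1 hv).2) hcon.1 hcon.2
  omega

end Pool.Agent.Q117.BP
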